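import Pool.Agent.Helper230.EGlueE

/-!
# No EOL form generates a superlinear s-grammatical family
-/

namespace Pool.Agent.Results.MP_1e6486_lc.NoSuperlinear

open Pool.Agent.Helper230.EForms

/-- If the s-grammatical family of a context-free grammar form `G` properly contains the family
of linear languages, then no EOL form has this family. -/
theorem result : ∀ G : Gram, IsCF G → FamLE LIN (sFamily G) → ¬ FamLE (sFamily G) LIN →
    ¬ ∃ H, IsEOL H ∧ FamEq (eolFamily H) (sFamily G) := by
  rintro G hG - hproper ⟨H, hH, h⟩
  exact hproper (fun L hL => ⟨L, main hG hH h hL, rfl⟩)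

end Pool.Agent.Results.MP_1e6486_lc.NoSuperlinear
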